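import Mathlib
import Pool.Agent.Q263.PK.Unif

/-!
# Every integer as an almost prime plus the square of an integer with restricted digits

Fix a base `b ≥ 2`. For `k ≥ 1` choose for every position `i < k` a set `D i` of digits, in any way,
such that two digits in `D i` have a difference without prime factors outside `b`, for example two
consecutive digits. Let `S` be the set of the integers `0 ≤ m < b ^ k` whose `i`-th digit is in
`D i` for every `i`; it may have only `2 ^ k` elements. For an integer `n` let `ρ(p)` be the number of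
the solutions of `m ^ 2 = n` modulo `p`, that is, `ρ(2) = 1` and `ρ(p) = 1 + (n/p)` for `p > 2`.

(1) For every `ε > 0` there are `L` and `k₀`, which depend on `b` and `ε` only, such that for all
`k ≥ k₀`, all choices of the sets of digits, ALL integers `n` (of any size and sign) and all `y ≥ b`
with `y ^ L ≤ b ^ k` the number of the `m ∈ S` such that `n - m ^ 2` has no prime factor `≤ y` is

  `(1 + θ) · g · ∏_{i ≥ 1} |D i| · ∏_{p ≤ y, p ∤ b} (1 - ρ(p) / p)`, `|θ| ≤ ε`,

where `g` is the number of the last digits `d ∈ D 0` for which `n - d ^ 2` is coprime to `b`. These are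
the local factors of the conjecture of Hardy and Littlewood for `n = p + m ^ 2`, squares `n` included.

(2) There are `r`, `k₀` and `δ > 0`, which depend on `b` only, such that for all `C`, all `k ≥ k₀`, all
sets of digits and all `n` with `b ^ (2 k) ≤ n ≤ b ^ (C k)` and `g ≥ 1` at least `δ |S| / k ^ 2` of the
`m ∈ S` are such that `n - m ^ 2` is positive and has at most `r C` prime factors.
-/

set_option autoImplicit false

namespace Pool.Agent.Results.MP_d48457_nt.EveryIntegerDigits

open Finset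
open scoped NumberTheorySymbols

/-- The integers `0 ≤ m < b ^ k` whose `i`-th digit in base `b` belongs to `D i`, for all `i < k`. -/
def Restricted (b k : ℕ) (D : Fin k → Finset ℕ) : Finset ℕ :=
  (Finset.range (b ^ k)).filter (fun n => ∀ i : Fin k, n / b ^ (i : ℕ) % b ∈ D i)

/-- Each `D i` is a set of digits, and it has two digits `c < c'` such that every prime factor of
`c' - c` divides `b`. -/
def DigitSets (b k : ℕ) (D : Fin k → Finset ℕ) : Prop :=
  ∀ i, (∀ d ∈ D i, d < b) ∧ ∃ c ∈ D i, ∃ c' ∈ D i, c < c' ∧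
    ∀ p : ℕ, p.Prime → p ∣ c' - c → p ∣ b

/-- The number of the solutions of `m ^ 2 = n` modulo the prime `p`. -/
def rho (n : ℤ) (p : ℕ) : ℤ := if p = 2 then 1 else 1 + J(n | p)

open Classical in
/-- The set of the `m ∈ S` such that `n - m ^ 2` has no prime factor `≤ y`. -/
noncomputable def Good (b k : ℕ) (D : Fin k → Finset ℕ) (n : ℤ) (y : ℕ) : Finset ℕ :=
  (Restricted b k D).filter (fun m : ℕ => ∀ p : ℕ, p.Prime → p ≤ y → ¬ (p : ℤ) ∣ n - (m : ℤ) ^ 2)

/-- The number of the last digits `d` such that `n - d ^ 2` is coprime to `b`. -/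
def lastDigits (b k : ℕ) (D : Fin k → Finset ℕ) (n : ℤ) : ℕ :=
  (((Finset.univ : Finset (Fin k)).filter (fun i : Fin k => (i : ℕ) = 0)).biUnion
    (fun i => (D i).filter (fun d : ℕ => Int.gcd (n - (d : ℤ) ^ 2) b = 1))).card

/-- The product of the numbers of the elements of `D i` over the positions `i ≥ 1`. -/
def otherDigits (k : ℕ) (D : Fin k → Finset ℕ) : ℕ :=
  ∏ i ∈ (Finset.univ : Finset (Fin k)).filter (fun i : Fin k => (i : ℕ) ≠ 0), (D i).card

/-- The main term. -/
noncomputable def mainTerm (b k : ℕ) (D : Fin k → Finset ℕ) (n : ℤ) (y : ℕ) : ℝ :=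
  (lastDigits b k D n : ℝ) * otherDigits k D *
    ∏ p ∈ (Finset.Icc 1 y).filter (fun p => p.Prime ∧ ¬ p ∣ b), (1 - (rho n p : ℝ) / (p : ℝ))

open Pool.Agent.Q263.PK

/-- the values -/
def G (n : ℤ) (m : ℕ) : ℤ := n - (m : ℤ) ^ 2

lemma G_per (n : ℤ) : Gen.PerG (G n) := by
  intro p m _
  unfold G
  have h1 : ((m % p : ℕ) : ℤ) = (m : ℤ) - p * ((m / p : ℕ) : ℤ) := by
    have h2 : ((p * (m / p) + m % p : ℕ) : ℤ) = m := by rw [Nat.div_add_mod]
    push_cast at h2 ⊢
    linarith
  have h2 : (p : ℤ) ∣ (n - ((m % p : ℕ) : ℤ) ^ 2) - (n - (m : ℤ) ^ 2) := by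
    rw [h1]
    refine ⟨2 * m * ((m / p : ℕ) : ℤ) - p * ((m / p : ℕ) : ℤ) ^ 2, ?_⟩
    ring
  constructor
  · intro h
    have h3 := dvd_add h2 h
    rwa [sub_add_cancel] at h3
  · intro h
    have h3 := dvd_sub h h2
    rwa [sub_sub_cancel] at h3

open Classical in
/-- the number of the roots -/
lemma rho_eq (n : ℤ) (p : ℕ) (hp : p.Prime) : (Gen.rho (G n) p : ℤ) = rho n p := by
  unfold Gen.rho rho G
  rcases eq_or_ne p 2 with rfl | h2
  · rw [if_pos rfl]
    have h1 : ((range 2).filter (fun r : ℕ => ((2 : ℕ) : ℤ) ∣ n - (r : ℤ) ^ 2)).card = 1 := by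
      rw [card_eq_one]
      refine ⟨(n % 2).toNat, ?_⟩
      ext r
      rw [mem_filter, mem_range, mem_singleton]
      constructor
      · rintro ⟨h3, h4⟩
        interval_cases r
        · norm_num at h4
          omega
        · norm_num at h4
          omega
      · rintro rfl
        have h5 : n % 2 = 0 ∨ n % 2 = 1 := by omega
        rcases h5 with h5 | h5
        · rw [h5]
          norm_num
          omega
        · rw [h5]
          norm_num
          omega
    exact_mod_cast h1
  · rw [if_neg h2]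
    have : Fact p.Prime := ⟨hp⟩
    have h3 := legendreSym.card_sqrts p h2 n
    rw [jacobiSym.legendreSym.to_jacobiSym] at h3
    have h4 : ((range p).filter (fun r : ℕ => (p : ℤ) ∣ n - (r : ℤ) ^ 2)).card =
        ({x : ZMod p | x ^ 2 = (n : ZMod p)}.toFinset).card := by
      apply Finset.card_bij (fun (a : ℕ) _ => (a : ZMod p))
      · intro a ha
        rw [Finset.mem_filter] at ha
        rw [Set.mem_toFinset, Set.mem_ofPred_eq]
        have h5 : ((n - (a : ℤ) ^ 2 : ℤ) : ZMod p) = 0 := (ZMod.intCast_zmod_eq_zero_iff_dvd _ _).2 ha.2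
        push_cast at h5 ⊢
        linear_combination -h5
      · intro a ha c hc h
        rw [Finset.mem_filter, Finset.mem_range] at ha hc
        have h5 := congrArg ZMod.val h
        rwa [ZMod.val_natCast_of_lt ha.1, ZMod.val_natCast_of_lt hc.1] at h5
      · intro x hx
        rw [Set.mem_toFinset, Set.mem_ofPred_eq] at hx
        refine ⟨x.val, ?_, ZMod.natCast_zmod_val x⟩
        rw [Finset.mem_filter, Finset.mem_range]
        refine ⟨ZMod.val_lt x, ?_⟩
        rw [← ZMod.intCast_zmod_eq_zero_iff_dvd]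
        push_cast
        rw [ZMod.natCast_zmod_val, hx]
        ring
    rw [h4, h3]
    ring

lemma rho_le (n : ℤ) (p : ℕ) (hp : p.Prime) : Gen.rho (G n) p ≤ 2 := by
  have h := rho_eq n p hp
  have h1 : rho n p ≤ 2 := by
    unfold rho
    split_ifs
    · norm_num
    · rcases jacobiSym.trichotomy n p with h | h | h <;> rw [h] <;> norm_num
  omega

lemma rho_lt (n : ℤ) (p : ℕ) (hp : p.Prime) : Gen.rho (G n) p < p := by
  rcases eq_or_ne p 2 with rfl | h2
  · have h := rho_eq n 2 hp
    unfold rho at h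
    rw [if_pos rfl] at h
    omega
  · have h := rho_le n p hp
    have := hp.two_le
    omega

lemma main_eq (b k : ℕ) (D : Fin k → Finset ℕ) (n : ℤ) (y : ℕ) :
    Gen.mainTerm b k D (G n) y = mainTerm b k D n y := by
  unfold Gen.mainTerm mainTerm
  have e2 : ∏ p ∈ (Finset.Icc 1 y).filter (fun p => p.Prime ∧ ¬ p ∣ b),
      (1 - (Gen.rho (G n) p : ℝ) / (p : ℝ)) =
      ∏ p ∈ (Finset.Icc 1 y).filter (fun p => p.Prime ∧ ¬ p ∣ b), (1 - (rho n p : ℝ) / (p : ℝ)) := by
    apply prod_congr rfl
    intro p hp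
    rw [← rho_eq n p (mem_filter.1 hp).2.1, Int.cast_natCast]
  rw [e2]
  rfl

open Classical in
theorem result : ∀ b : ℕ, 2 ≤ b →
    (∀ ε : ℝ, 0 < ε → ∃ L k₀ : ℕ, 1 ≤ L ∧ ∀ k : ℕ, k₀ ≤ k →
      ∀ D : Fin k → Finset ℕ, DigitSets b k D → ∀ n : ℤ, ∀ y : ℕ, b ≤ y → y ^ L ≤ b ^ k →
      |((Good b k D n y).card : ℝ) - mainTerm b k D n y| ≤ ε * mainTerm b k D n y) ∧
    (∃ (r k₀ : ℕ) (δ : ℝ), 0 < δ ∧ ∀ C : ℕ, ∀ k : ℕ, k₀ ≤ k →
      ∀ D : Fin k → Finset ℕ, DigitSets b k D → ∀ n : ℕ, b ^ (2 * k) ≤ n → n ≤ b ^ (C * k) →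
      1 ≤ lastDigits b k D n →
      δ * (Restricted b k D).card / (k : ℝ) ^ 2 ≤
        (((Restricted b k D).filter (fun m : ℕ => m ^ 2 < n ∧
          (n - m ^ 2).primeFactorsList.length ≤ r * C)).card : ℝ)) := by
  intro b hb
  constructor
  · intro ε hε
    obtain ⟨L, k₀, hL, h⟩ := Gen.count hb 2 ε hε
    refine ⟨L, k₀, hL, fun k hk D hD n y hby hy => ?_⟩
    have h1 := h k hk D hD (G n) (G_per n) (rho_le n) y hby hy
    rw [main_eq] at h1
    exact h1
  · obtain ⟨r, k₀, δ, hδ, h⟩ := Gen.almost hb 2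
    refine ⟨r, k₀, δ, hδ, fun C k hk D hD n hn1 hn2 hg => ?_⟩
    have hsq : ∀ m < b ^ k, m ^ 2 < n := by
      intro m hm
      calc m ^ 2 < (b ^ k) ^ 2 := Nat.pow_lt_pow_left hm (by norm_num)
        _ = b ^ (2 * k) := by rw [← pow_mul, mul_comm]
        _ ≤ n := hn1
    have hval : ∀ m < b ^ k, G n m = ((n - m ^ 2 : ℕ) : ℤ) := by
      intro m hm
      unfold G
      rw [Nat.cast_sub (hsq m hm).le]
      push_cast
      rfl
    have h1 := h C k hk D hD (G n) (G_per n) (rho_le n) (rho_lt n) (fun m hm => by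
      rw [hval m hm, Int.natAbs_natCast]
      omega) hg
    refine h1.trans ?_
    apply Nat.cast_le.2
    apply card_le_card
    intro m hm
    rw [mem_filter] at hm ⊢
    have hmk : m < b ^ k := by
      have := hm.1
      unfold Gen.Restricted at this
      rw [mem_filter, mem_range] at this
      exact this.1
    refine ⟨hm.1, hsq m hmk, ?_⟩
    have h2 := hm.2.2
    rwa [hval m hmk, Int.natAbs_natCast] at h2

end Pool.Agent.Results.MP_d48457_nt.EveryIntegerDigits
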