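import Pool.Agent.Q154.War.PrimeSq

/-!
# MP_d48457_nt: a prime plus the integer part of a shifted square

For almost every real shift `α` in `[0, 1]` all but `O(X^(1/2+ε))` of the integers up to `X` are
`p + ⌊(x + α)^2⌋`; with one more term `⌊β b⌋`, where `b` runs through any slowly growing set (for
example the powers of two), all but `O(X^ε)`, and with two such terms all large integers. There is a
version for `k`-th powers, for all `k ≥ 2`.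
-/

set_option autoImplicit false

open MeasureTheory Set

namespace Pool.Agent.Results.MP_d48457_nt.GenericShifts

/-- A set of naturals which has, for each `ε > 0`, an element in `[X^(1-ε), X]` for all large `X`
(such as the powers of two, or any infinite set whose consecutive elements have asymptotically equal
logarithms). -/
def SlowlyGrowing (B : Set ℕ) : Prop :=
  ∀ ε : ℝ, 0 < ε → ∃ X₀ : ℝ, ∀ X ≥ X₀, ∃ b ∈ B, X ^ (1 - ε) ≤ (b : ℝ) ∧ (b : ℝ) ≤ X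

/-- `n = p + ⌊(x + α)^k⌋ + ⌊β₁ b₁⌋ + … + ⌊β_J b_J⌋` with a prime `p`, an integer `x > 0` and
`b_i ∈ B_i`. -/
def Rep (α : ℝ) (k : ℕ) {J : ℕ} (B : Fin J → Set ℕ) (β : Fin J → ℝ) (n : ℕ) : Prop :=
  ∃ (p x : ℕ) (b : Fin J → ℕ), p.Prime ∧ 0 < x ∧ (∀ i, b i ∈ B i) ∧
    n = p + ⌊((x : ℝ) + α) ^ k⌋₊ + ∑ i, ⌊β i * b i⌋₊

open Pool.Agent.Q154.War in
lemma rep_iff (α : ℝ) (k : ℕ) {J : ℕ} (B : Fin J → Set ℕ) (β : Fin J → ℝ) (n : ℕ) :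
    Rep α k B β n ↔ n ∈ SS (addF {p : ℕ | p.Prime} (shf k) α) B β := by
  constructor
  · rintro ⟨p, x, b, hp, hx, hb, h⟩
    exact ⟨p + ⌊((x : ℝ) + α) ^ k⌋₊, ⟨p, hp, x, hx, rfl⟩, b, hb, h⟩
  · rintro ⟨a, ⟨p, hp, x, hx, ha⟩, b, hb, h⟩
    refine ⟨p, x, b, hp, hx, hb, ?_⟩
    rw [h, ha]
    rfl

/-- **Primes plus shifted powers.** -/
theorem result :
    ∀ᵐ α ∂((volume : Measure ℝ).restrict (Set.Icc 0 1)),
      (∀ ε : ℝ, 0 < ε → ∃ C : ℝ, ∀ X : ℕ, 1 ≤ X →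
        ({n : ℕ | n ≤ X ∧ ¬ ∃ p x : ℕ, p.Prime ∧ 0 < x ∧
          n = p + ⌊((x : ℝ) + α) ^ 2⌋₊}.ncard : ℝ) ≤ C * (X : ℝ) ^ (1 / 2 + ε)) ∧
      ∀ k : ℕ, 2 ≤ k → ∀ (J : ℕ) (B : Fin J → Set ℕ), (∀ i, SlowlyGrowing (B i)) →
        ∀ᵐ β : Fin J → ℝ, (∀ i, 0 < β i) →
          (k < 2 ^ J → ∃ N₀ : ℕ, ∀ n ≥ N₀, Rep α k B β n) ∧
          ∀ ε : ℝ, 0 < ε → ∃ C : ℝ, ∀ X : ℕ, 1 ≤ X →
            ({n : ℕ | n ≤ X ∧ ¬ Rep α k B β n}.ncard : ℝ) ≤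
              C * (X : ℝ) ^ (max 0 (1 - 2 ^ J / (k : ℝ)) + ε) := by
  have h0 : ∀ σ : ℝ, 0 < σ → ∃ i₀ : ℕ, ∀ i ≥ i₀, 1 * (2 : ℝ) ^ ((1 - σ) * i) ≤
      (Pool.Agent.Q154.War.cutB {p : ℕ | p.Prime} (2 ^ i)).card :=
    fun σ hσ => Pool.Agent.Q154.War.prime_dense hσ
  have h1 := Pool.Agent.Q154.War.dense_all (A := {p : ℕ | p.Prime}) (τ := 0) h0
  have h2 : Pool.Agent.Q154.War.ν1 = (volume : Measure ℝ).restrict (Set.Icc 0 1) := rfl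
  rw [h2] at h1
  filter_upwards [h1] with α hα
  have hgen : ∀ k : ℕ, 2 ≤ k → ∀ (J : ℕ) (B : Fin J → Set ℕ), (∀ i, SlowlyGrowing (B i)) →
        ∀ᵐ β : Fin J → ℝ, (∀ i, 0 < β i) →
          (k < 2 ^ J → ∃ N₀ : ℕ, ∀ n ≥ N₀, Rep α k B β n) ∧
          ∀ ε : ℝ, 0 < ε → ∃ C : ℝ, ∀ X : ℕ, 1 ≤ X →
            ({n : ℕ | n ≤ X ∧ ¬ Rep α k B β n}.ncard : ℝ) ≤
              C * (X : ℝ) ^ (max 0 (1 - 2 ^ J / (k : ℝ)) + ε) := by
    intro k hk J B hB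
    filter_upwards [hα k hk J B hB] with β hβ hpos
    obtain ⟨h3, h4⟩ := hβ hpos
    have hk0 : (0 : ℝ) < k := by
      have : 0 < k := by omega
      exact_mod_cast this
    have e : (2 : ℝ) ^ J * (1 / (k : ℝ) - 0) = 2 ^ J / k := by ring
    rw [e] at h3 h4
    simp only [rep_iff]
    refine ⟨fun h5 => h3 ?_, h4⟩
    rw [one_lt_div hk0]
    exact_mod_cast h5
  refine ⟨fun ε hε => ?_, hgen⟩
  have h5 := hgen 2 le_rfl 0 (fun i => i.elim0) (fun i => i.elim0)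
  obtain ⟨β, hβ⟩ := h5.exists
  obtain ⟨C, hC⟩ := (hβ (fun i => i.elim0)).2 ε hε
  refine ⟨C, fun X hX => ?_⟩
  have h6 := hC X hX
  have e2 : max 0 (1 - (2 : ℝ) ^ 0 / ((2 : ℕ) : ℝ)) = 1 / 2 := by norm_num
  rw [e2] at h6
  have e3 : {n : ℕ | n ≤ X ∧ ¬ ∃ p x : ℕ, p.Prime ∧ 0 < x ∧ n = p + ⌊((x : ℝ) + α) ^ 2⌋₊} =
      {n : ℕ | n ≤ X ∧ ¬ Rep α 2 (fun i : Fin 0 => i.elim0) β n} := by
    ext n
    simp only [Set.mem_ofPred_eq]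
    refine and_congr_right fun _ => not_congr ?_
    constructor
    · rintro ⟨p, x, hp, hx, h⟩
      exact ⟨p, x, Fin.elim0, hp, hx, fun i => i.elim0, by simpa using h⟩
    · rintro ⟨p, x, b, hp, hx, _, h⟩
      exact ⟨p, x, hp, hx, by simpa using h⟩
  rw [e3]
  exact h6

end Pool.Agent.Results.MP_d48457_nt.GenericShifts
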