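import Pool.Agent.Q120.GF.Basic
import Pool.Agent.Q120.MF.Exists

/-!
# The least summand in Cramér's model

Let `b_0 < b_1 < ...` be any sequence of natural numbers with `log b_j = o(√j)`, for instance the squares. In
Cramér's model of the primes almost surely every large `N` is a sum `a + b_j` of an element `a` of the random set
and some `b_j` with `j ≤ (1 + ε) (log N)^2`, and for infinitely many `N` there is no such `j ≤ (1 - ε) (log N)^2`.
-/

set_option autoImplicit false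

namespace Pool.Agent.Results.MP_d48457_nt.LeastSummandLaw

open Finset MeasureTheory Filter Pool.Agent.Q120.ET Pool.Agent.Q120.MF Pool.Agent.Q120.SH Pool.Agent.Q120.GF

theorem hl : Tendsto (fun x : ℕ => Real.log (x : ℝ)) atTop atTop :=
  Real.tendsto_log_atTop.comp tendsto_natCast_atTop_atTop

theorem hl2 : Tendsto (fun x : ℕ => Real.log (x : ℝ) ^ 2) atTop atTop :=
  (tendsto_pow_atTop two_ne_zero).comp hl

/-- The largest admissible index. -/
noncomputable def M (c : ℝ) (N : ℕ) : ℕ := ⌊c * Real.log N ^ 2⌋₊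

/-- The numbers `N - b_j`, `j ≤ c (log N)^2`. -/
noncomputable def W (b : ℕ → ℕ) (c : ℝ) (N : ℕ) : Finset ℕ := (range (M c N + 1)).image (fun j => N - b j)

theorem small_terms {b : ℕ → ℕ} (hb : StrictMono b)
    (hg : Tendsto (fun j : ℕ => Real.log (b j) / Real.sqrt j) atTop (nhds 0)) {c : ℝ} (hc : 0 < c) :
    ∀ᶠ N : ℕ in atTop, ∀ j ≤ M c N, 2 * b j ≤ N := by
  have hM : Tendsto (M c) atTop atTop := by
    have h1 : Tendsto (fun N : ℕ => c * Real.log (N : ℝ) ^ 2) atTop atTop := hl2.const_mul_atTop hc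
    exact tendsto_nat_floor_atTop.comp h1
  have h1 := hM.eventually (hg.eventually_lt_const (show (0 : ℝ) < 1 / (2 * Real.sqrt c) by
    have := Real.sqrt_pos.2 hc
    positivity))
  filter_upwards [h1, eventually_ge_atTop 4, hM.eventually_ge_atTop 1] with N hN hN4 hM1 j hj
  have hbj : b j ≤ b (M c N) := hb.monotone hj
  have hN0 : (4 : ℝ) ≤ N := by exact_mod_cast hN4
  have hlogN : 0 < Real.log (N : ℝ) := Real.log_pos (by linarith)
  have hMpos : (0 : ℝ) < M c N := by exact_mod_cast hM1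
  have hsM : 0 < Real.sqrt (M c N) := Real.sqrt_pos.2 hMpos
  have hsc : 0 < Real.sqrt c := Real.sqrt_pos.2 hc
  rw [div_lt_iff₀ hsM] at hN
  have h2 : Real.sqrt (M c N) ≤ Real.sqrt c * Real.log N := by
    have h3 : (M c N : ℝ) ≤ c * Real.log N ^ 2 := Nat.floor_le (by positivity)
    calc Real.sqrt (M c N) ≤ Real.sqrt (c * Real.log N ^ 2) := Real.sqrt_le_sqrt h3
      _ = Real.sqrt c * Real.log N := by
        rw [Real.sqrt_mul hc.le, Real.sqrt_sq hlogN.le]
  have h3 : Real.log (b (M c N)) ≤ Real.log N / 2 := by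
    have h4 : 1 / (2 * Real.sqrt c) * Real.sqrt (M c N) ≤ 1 / (2 * Real.sqrt c) * (Real.sqrt c * Real.log N) :=
      mul_le_mul_of_nonneg_left h2 (by positivity)
    have h5 : 1 / (2 * Real.sqrt c) * (Real.sqrt c * Real.log N) = Real.log N / 2 := by field_simp
    linarith
  have hbpos : (0 : ℝ) < b (M c N) := by
    have h4 : 0 < b (M c N) := by
      have := hb (show 0 < M c N by omega)
      omega
    exact_mod_cast h4
  have h4 : (b (M c N) : ℝ) ^ 2 ≤ N := by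
    rw [← Real.log_le_log_iff (by positivity) (by linarith), Real.log_pow]
    push_cast
    linarith
  have h5 : 2 * (b (M c N) : ℝ) ≤ N := by
    by_contra hcon
    push Not at hcon
    nlinarith
  have h6 : 2 * b (M c N) ≤ N := by exact_mod_cast h5
  omega

theorem sum_W {b : ℕ → ℕ} (hb : StrictMono b) {c : ℝ} {N : ℕ} (h : ∀ j ≤ M c N, 2 * b j ≤ N) :
    ∑ n ∈ W b c N, 1 / Real.log (n : ℝ) = ∑ j ∈ range (M c N + 1), 1 / Real.log ((N - b j : ℕ) : ℝ) := by
  unfold W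
  rw [sum_image]
  intro i hi j hj hij
  have hi' : i < M c N + 1 := by simpa using hi
  have hj' : j < M c N + 1 := by simpa using hj
  have h1 := h i (by omega)
  have h2 := h j (by omega)
  simp only at hij
  apply hb.injective
  omega

theorem three_le_W {b : ℕ → ℕ} {c : ℝ} {N : ℕ} (hN : 6 ≤ N) (h : ∀ j ≤ M c N, 2 * b j ≤ N) :
    ∀ n ∈ W b c N, 3 ≤ n := by
  intro n hn
  unfold W at hn
  rw [mem_image] at hn
  obtain ⟨j, hj, rfl⟩ := hn
  rw [mem_range] at hj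
  have := h j (by omega)
  omega

theorem weight_lower {b : ℕ → ℕ} (hb : StrictMono b) {c : ℝ} (hc : 0 < c) {N : ℕ} (hN : 6 ≤ N)
    (h : ∀ j ≤ M c N, 2 * b j ≤ N) : c * Real.log N ≤ ∑ n ∈ W b c N, 1 / Real.log (n : ℝ) := by
  rw [sum_W hb h]
  have hN0 : (6 : ℝ) ≤ N := by exact_mod_cast hN
  have hlogN : 0 < Real.log (N : ℝ) := Real.log_pos (by linarith)
  have h1 : ∑ j ∈ range (M c N + 1), 1 / Real.log (N : ℝ) ≤
      ∑ j ∈ range (M c N + 1), 1 / Real.log ((N - b j : ℕ) : ℝ) := by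
    apply sum_le_sum
    intro j hj
    rw [mem_range] at hj
    have h2 := h j (by omega)
    have h3 : (3 : ℝ) ≤ ((N - b j : ℕ) : ℝ) := by
      have : 3 ≤ N - b j := by omega
      exact_mod_cast this
    apply one_div_le_one_div_of_le (Real.log_pos (by linarith))
    apply Real.log_le_log (by linarith)
    have : N - b j ≤ N := by omega
    exact_mod_cast this
  rw [sum_const, card_range, nsmul_eq_mul] at h1
  refine le_trans ?_ h1
  rw [mul_one_div, le_div_iff₀ hlogN]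
  have h2 : c * Real.log N ^ 2 < (M c N : ℝ) + 1 := Nat.lt_floor_add_one _
  push_cast
  nlinarith

theorem weight_upper {b : ℕ → ℕ} (hb : StrictMono b) {c : ℝ} (hc : 0 < c) {N : ℕ} (hN : 6 ≤ N)
    (h : ∀ j ≤ M c N, 2 * b j ≤ N) :
    ∑ n ∈ W b c N, 1 / Real.log (n : ℝ) ≤ (c * Real.log N ^ 2 + 1) / (Real.log N - 1) := by
  rw [sum_W hb h]
  have hN0 : (6 : ℝ) ≤ N := by exact_mod_cast hN
  have hlogN : 1 < Real.log (N : ℝ) := one_lt_log (by omega)
  have h1 : ∑ j ∈ range (M c N + 1), 1 / Real.log ((N - b j : ℕ) : ℝ) ≤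
      ∑ j ∈ range (M c N + 1), 1 / (Real.log (N : ℝ) - 1) := by
    apply sum_le_sum
    intro j hj
    rw [mem_range] at hj
    have h2 := h j (by omega)
    apply one_div_le_one_div_of_le (by linarith)
    have h4 : (N : ℝ) ≤ 2 * ((N - b j : ℕ) : ℝ) := by
      have : N ≤ 2 * (N - b j) := by omega
      exact_mod_cast this
    have h5 : Real.log (N : ℝ) ≤ Real.log 2 + Real.log ((N - b j : ℕ) : ℝ) := by
      rw [← Real.log_mul (by norm_num) (by
        intro h0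
        rw [h0] at h4
        linarith)]
      exact Real.log_le_log (by linarith) h4
    linarith [Real.log_two_lt_d9]
  rw [sum_const, card_range, nsmul_eq_mul, mul_one_div] at h1
  refine h1.trans ?_
  apply div_le_div_of_nonneg_right _ (by linarith)
  have h2 : (M c N : ℝ) ≤ c * Real.log N ^ 2 := Nat.floor_le (by positivity)
  push_cast
  linarith

variable {Ω : Type*} [MeasurableSpace Ω] {μ : Measure Ω} [IsProbabilityMeasure μ] {A : Ω → Set ℕ}

theorem mem_W {b : ℕ → ℕ} {c : ℝ} {N a : ℕ} (hc : 0 < c) (h : ∀ j ≤ M c N, 2 * b j ≤ N) :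
    a ∈ W b c N ↔ ∃ j : ℕ, (j : ℝ) ≤ c * Real.log N ^ 2 ∧ a + b j = N := by
  unfold W
  rw [mem_image]
  constructor
  · rintro ⟨j, hj, rfl⟩
    rw [mem_range] at hj
    have h1 := h j (by omega)
    refine ⟨j, ?_, by omega⟩
    have h2 : (M c N : ℝ) ≤ c * Real.log N ^ 2 := Nat.floor_le (by positivity)
    have h3 : (j : ℝ) ≤ M c N := by
      have : j ≤ M c N := by omega
      exact_mod_cast this
    linarith
  · rintro ⟨j, hj, h1⟩
    have h2 : j ≤ M c N := Nat.le_floor hj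
    exact ⟨j, mem_range.2 (by omega), by omega⟩

theorem upper (hA : IsCramer μ A) {b : ℕ → ℕ} (hb : StrictMono b)
    (hg : Tendsto (fun j : ℕ => Real.log (b j) / Real.sqrt j) atTop (nhds 0)) {ε : ℝ} (hε : 0 < ε) :
    ∀ᵐ ω ∂μ, ∀ᶠ N : ℕ in atTop, ∃ j : ℕ, (j : ℝ) ≤ (1 + ε) * Real.log N ^ 2 ∧ ∃ a ∈ A ω, a + b j = N := by
  have hc : 0 < 1 + ε := by linarith
  obtain ⟨N0, hN0⟩ := eventually_atTop.1 (small_terms hb hg hc)
  obtain ⟨X, hX⟩ : ∃ X : Set ℕ, X = {N | max N0 6 ≤ N} := ⟨_, rfl⟩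
  have hXm : ∀ N ∈ X, N0 ≤ N ∧ 6 ≤ N := by
    intro N hN
    rw [hX] at hN
    exact ⟨(le_max_left _ _).trans hN, (le_max_right _ _).trans hN⟩
  have hs : Summable (X.indicator (fun x => Real.exp (-∑ n ∈ W b (1 + ε) x, 1 / Real.log (n : ℝ)))) := by
    refine Summable.of_nonneg_of_le
      (fun x => Set.indicator_nonneg (fun _ _ => (Real.exp_pos _).le) x) (fun x => ?_)
      (Real.summable_nat_rpow.2 (show -(1 + ε) < -1 by linarith))
    by_cases hx : x ∈ X
    · rw [Set.indicator_of_mem hx]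
      obtain ⟨h1, h2⟩ := hXm x hx
      have hx0 : (0 : ℝ) < x := by
        have : 0 < x := by omega
        exact_mod_cast this
      rw [Real.rpow_def_of_pos hx0]
      apply Real.exp_le_exp.2
      have := weight_lower hb hc h2 (hN0 x h1)
      linarith
    · rw [Set.indicator_of_notMem hx]
      positivity
  filter_upwards [gen_hit hA X (W b (1 + ε)) (fun x hx => three_le_W (hXm x hx).2 (hN0 x (hXm x hx).1)) hs]
    with ω hω
  filter_upwards [hω, eventually_ge_atTop (max N0 6)] with N hN hNN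
  have hNX : N ∈ X := by rw [hX]; exact hNN
  obtain ⟨a, ha, haW⟩ := hN hNX
  rw [mem_W hc (hN0 N (hXm N hNX).1)] at haW
  obtain ⟨j, hj1, hj2⟩ := haW
  exact ⟨j, hj1, a, ha, hj2⟩

theorem ev_degree {ε : ℝ} (hε : 0 < ε) :
    ∀ᶠ k : ℕ in atTop, ((((k + 1) ^ 2 + 1) ^ 2 : ℕ) : ℝ) + 1 ≤ (2 : ℝ) ^ ((k : ℝ) * ε) := by
  have hr : 1 < (2 : ℝ) ^ ε := Real.one_lt_rpow (by norm_num) hε
  have h1 := (tendsto_pow_const_div_const_pow_of_one_lt 5 hr).eventually_lt_const one_pos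
  filter_upwards [h1, eventually_ge_atTop 40] with k hk hk40
  have hk0 : (40 : ℝ) ≤ k := by exact_mod_cast hk40
  have h3 : ((2 : ℝ) ^ ε) ^ k = (2 : ℝ) ^ ((k : ℝ) * ε) := by
    rw [← Real.rpow_natCast, ← Real.rpow_mul (by norm_num)]
    congr 1
    ring
  rw [div_lt_one (by positivity), h3] at hk
  refine le_trans ?_ hk.le
  push_cast
  have h4 : ((k : ℝ) + 1) ^ 2 + 1 ≤ 2 * (k : ℝ) ^ 2 := by nlinarith
  have h5 : (((k : ℝ) + 1) ^ 2 + 1) ^ 2 ≤ (2 * (k : ℝ) ^ 2) ^ 2 := by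
    apply pow_le_pow_left₀ (by positivity) h4
  have h6 : (1 : ℝ) ≤ (k : ℝ) ^ 4 := one_le_pow₀ (by linarith)
  calc (((k : ℝ) + 1) ^ 2 + 1) ^ 2 + 1 ≤ (2 * (k : ℝ) ^ 2) ^ 2 + (k : ℝ) ^ 4 := by linarith
    _ = 5 * (k : ℝ) ^ 4 := by ring
    _ ≤ (k : ℝ) ^ 5 := by
        have : (k : ℝ) ^ 5 = k * (k : ℝ) ^ 4 := by ring
        rw [this]
        nlinarith

theorem lower (hA : IsCramer μ A) {b : ℕ → ℕ} (hb : StrictMono b)
    (hg : Tendsto (fun j : ℕ => Real.log (b j) / Real.sqrt j) atTop (nhds 0)) {ε : ℝ} (hε : 0 < ε) (hε1 : ε < 1) :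
    ∀ᵐ ω ∂μ, ∃ᶠ N : ℕ in atTop, ∀ j : ℕ, (j : ℝ) ≤ (1 - ε) * Real.log N ^ 2 → ∀ a ∈ A ω, a + b j ≠ N := by
  have hc : 0 < 1 - ε := by linarith
  obtain ⟨N0, hN0⟩ := eventually_atTop.1 (small_terms hb hg hc)
  have hns : ¬ Summable ((Set.univ : Set ℕ).indicator (fun x : ℕ => (x : ℝ) ^ (-(1 : ℝ)))) := by
    rw [Set.indicator_univ]
    intro hs
    have := Real.summable_nat_rpow.1 hs
    linarith
  have hW : ∀ᶠ x : ℕ in atTop, x ∈ (Set.univ : Set ℕ) → (∀ n ∈ W b (1 - ε) x, 3 ≤ n) ∧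
      ∑ n ∈ W b (1 - ε) x, 1 / Real.log (n : ℝ) ≤ (1 - ε / 2) * Real.log x := by
    filter_upwards [eventually_ge_atTop N0, eventually_ge_atTop 6, hl.eventually_ge_atTop (4 / ε)] with
      x hx1 hx2 hx3 _
    refine ⟨three_le_W hx2 (hN0 x hx1), (weight_upper hb hc hx2 (hN0 x hx1)).trans ?_⟩
    have hlog : 1 < Real.log (x : ℝ) := one_lt_log (by omega)
    rw [div_le_iff₀ (by linarith)]
    rw [div_le_iff₀ hε] at hx3
    nlinarith
  have hdeg : ∀ δ : ℝ, 0 < δ → ∀ᶠ k : ℕ in atTop, ∃ D : ℕ, (D : ℝ) + 1 ≤ (2 : ℝ) ^ ((k : ℝ) * δ) ∧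
      ∀ x ∈ Pool.Agent.Q120.SH.block Set.univ k, ∃ F : Finset ℕ, F.card ≤ D ∧
        ∀ y ∈ Pool.Agent.Q120.SH.block Set.univ k, ¬ Disjoint (W b (1 - ε) x) (W b (1 - ε) y) → y ∈ F := by
    intro δ hδ
    filter_upwards [ev_degree hδ, eventually_ge_atTop N0] with k hk hkN0
    refine ⟨((k + 1) ^ 2 + 1) ^ 2, hk, ?_⟩
    have hMle : ∀ x ∈ Pool.Agent.Q120.SH.block Set.univ k, M (1 - ε) x + 1 ≤ (k + 1) ^ 2 + 1 := by
      intro x hx
      rw [mem_block] at hx
      have hlt : k < 2 ^ k := Nat.lt_two_pow_self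
      have hxpos : 0 < x := by omega
      have h4 : Real.log (x : ℝ) ≤ k + 1 := by
        have h4 : ((x : ℕ) : ℝ) ≤ (2 : ℝ) ^ (k + 1) := by exact_mod_cast hx.1.2.le
        have h5 := Real.log_le_log (by exact_mod_cast hxpos) h4
        rw [Real.log_pow] at h5
        push_cast at h5
        have h6 : Real.log 2 ≤ 1 := by linarith [Real.log_two_lt_d9]
        nlinarith [show (0 : ℝ) ≤ (k : ℝ) + 1 by positivity]
      have h5 : 0 ≤ Real.log (x : ℝ) := Real.log_natCast_nonneg x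
      have h6 : (M (1 - ε) x : ℝ) ≤ ((k : ℝ) + 1) ^ 2 := by
        have h7 : (M (1 - ε) x : ℝ) ≤ (1 - ε) * Real.log x ^ 2 := Nat.floor_le (by positivity)
        have h8 : Real.log (x : ℝ) ^ 2 ≤ ((k : ℝ) + 1) ^ 2 := pow_le_pow_left₀ h5 h4 2
        nlinarith [sq_nonneg (Real.log (x : ℝ))]
      have h7 : M (1 - ε) x ≤ (k + 1) ^ 2 := by exact_mod_cast h6
      omega
    intro x hx
    refine ⟨((W b (1 - ε) x) ×ˢ range ((k + 1) ^ 2 + 1)).image (fun p => p.1 + b p.2), ?_, ?_⟩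
    · refine card_image_le.trans ?_
      rw [card_product, card_range, sq ((k + 1) ^ 2 + 1)]
      apply Nat.mul_le_mul_right
      unfold W
      refine card_image_le.trans ?_
      rw [card_range]
      exact hMle x hx
    · intro y hy hxy
      rw [Finset.not_disjoint_iff] at hxy
      obtain ⟨n, hn1, hn2⟩ := hxy
      have hy' := mem_block.1 hy
      have hlt : k < 2 ^ k := Nat.lt_two_pow_self
      unfold W at hn2
      rw [mem_image] at hn2
      obtain ⟨j, hj, hjn⟩ := hn2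
      rw [mem_range] at hj
      have h1 := hN0 y (by omega) j (by omega)
      rw [mem_image]
      refine ⟨(n, j), ?_, ?_⟩
      · rw [mem_product, mem_range]
        exact ⟨hn1, lt_of_lt_of_le hj (hMle y hy)⟩
      · show n + b j = y
        omega
  filter_upwards [gen_free hA Set.univ (W b (1 - ε)) (show 0 < 1 - ε / 2 by linarith)
    (show 1 - ε / 2 < 1 by linarith) hns hW hdeg] with ω hω
  refine (hω.and_eventually (eventually_ge_atTop N0)).mono ?_
  rintro N ⟨⟨_, hN⟩, hNN0⟩ j hj a ha hcon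
  apply hN a ha
  rw [mem_W hc (hN0 N hNN0)]
  exact ⟨j, hj, hcon⟩

/-- **The law of the least summand.** -/
theorem result :
    -- Cramér's model exists
    (IsProbabilityMeasure cramerMeasure ∧ IsCramer cramerMeasure cramerSet) ∧
    -- the squares are among the sequences considered
    Tendsto (fun j : ℕ => Real.log ((j ^ 2 : ℕ) : ℝ) / Real.sqrt j) atTop (nhds 0) ∧
    ∀ (Ω : Type) [MeasurableSpace Ω] (μ : Measure Ω) [IsProbabilityMeasure μ] (A : Ω → Set ℕ),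
      IsCramer μ A → ∀ b : ℕ → ℕ, StrictMono b →
        Tendsto (fun j : ℕ => Real.log (b j) / Real.sqrt j) atTop (nhds 0) →
        ∀ᵐ ω ∂μ, ∀ ε : ℝ, 0 < ε →
          (∀ᶠ N : ℕ in atTop, ∃ j : ℕ, (j : ℝ) ≤ (1 + ε) * Real.log N ^ 2 ∧ ∃ a ∈ A ω, a + b j = N) ∧
          (∃ᶠ N : ℕ in atTop, ∀ j : ℕ, (j : ℝ) ≤ (1 - ε) * Real.log N ^ 2 → ∀ a ∈ A ω, a + b j ≠ N) := by
  refine ⟨⟨inferInstance, isCramer⟩, ?_, ?_⟩
  · have h1 := (isLittleO_log_rpow_atTop (show (0 : ℝ) < 1 / 2 by norm_num)).tendsto_div_nhds_zero.comp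
      tendsto_natCast_atTop_atTop
    have h2 := h1.const_mul 2
    rw [mul_zero] at h2
    refine h2.congr (fun j => ?_)
    simp only [Function.comp]
    rw [Real.sqrt_eq_rpow]
    push_cast
    rw [Real.log_pow]
    push_cast
    ring
  · intro Ω _ μ _ A hA b hb hg
    have h1 : ∀ᵐ ω ∂μ, ∀ m : ℕ, ∀ᶠ N : ℕ in atTop, ∃ j : ℕ, (j : ℝ) ≤ (1 + 1 / ((m : ℝ) + 1)) * Real.log N ^ 2 ∧
        ∃ a ∈ A ω, a + b j = N := ae_all_iff.2 (fun m => upper hA hb hg (by positivity))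
    have h2 : ∀ᵐ ω ∂μ, ∀ m : ℕ, ∃ᶠ N : ℕ in atTop, ∀ j : ℕ, (j : ℝ) ≤ (1 - 1 / ((m : ℝ) + 2)) * Real.log N ^ 2 →
        ∀ a ∈ A ω, a + b j ≠ N := by
      refine ae_all_iff.2 (fun m => lower hA hb hg (by positivity) ?_)
      rw [div_lt_one (by positivity)]
      have : (0 : ℝ) ≤ m := Nat.cast_nonneg m
      linarith
    filter_upwards [h1, h2] with ω hω1 hω2 ε hε
    obtain ⟨m, hm⟩ := exists_nat_one_div_lt hε
    constructor
    · filter_upwards [hω1 m] with N hN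
      obtain ⟨j, hj, h⟩ := hN
      refine ⟨j, hj.trans ?_, h⟩
      have := sq_nonneg (Real.log (N : ℝ))
      nlinarith
    · refine (hω2 m).mono ?_
      intro N hN j hj
      apply hN j
      refine hj.trans ?_
      have h3 : 1 / ((m : ℝ) + 2) ≤ 1 / ((m : ℝ) + 1) :=
        one_div_le_one_div_of_le (by positivity) (by linarith)
      have := sq_nonneg (Real.log (N : ℝ))
      nlinarith

end Pool.Agent.Results.MP_d48457_nt.LeastSummandLaw
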