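import Pool.Agent.Q145.MT.SqMain

set_option autoImplicit false
set_option maxHeartbeats 4000000

/-! # Even numbers as a prime plus a square: which small squares occur

`S X N` is the set of all `k ≤ c log X (log log X)²` such that `N - k²` is prime (`N ∈ (X, 4X]` even and not a
square). (1) Every one-element set `{m₀}`, `m₀` odd, is `S X N` for more than `X^(4/5)` numbers `N`. (2) In every
set of `K` odd numbers whose squares lie in an interval of length `(log X)²`, coloured with `m` colours, there are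
subsets `S X N` which contain elements of `η m` colours. (3) The least `k` with `N - k²` prime, divided by `log N`,
has all nonnegative real numbers as limit points. -/

namespace Pool.Agent.Results.MP_d48457_nt.SmallSquareSummands

open Finset Filter

open scoped Classical

/-- `log X (log log X)²` -/
noncomputable def F (X : ℝ) : ℝ := Real.log X * (Real.log (Real.log X)) ^ 2

/-- the `k ≤ B` such that `N - k²` is a prime -/
def S (B : ℝ) (N : ℕ) : Set ℕ := {k : ℕ | (k : ℝ) ≤ B ∧ (N - k ^ 2).Prime}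

/-- the even integers in `(X, 4X]` which are not squares and have the property `Q` -/
noncomputable def evens (X : ℝ) (Q : ℕ → Prop) : Finset ℕ :=
  (Icc 1 ⌊4 * X⌋₊).filter (fun N => X < N ∧ Even N ∧ ¬ IsSquare N ∧ Q N)

theorem card_squares (n : ℕ) : (((Icc 1 n).filter (fun N => IsSquare N)).card) ≤ Nat.sqrt n := by
  have h1 : (Icc 1 n).filter (fun N => IsSquare N) ⊆ (Icc 1 (Nat.sqrt n)).image (fun a => a ^ 2) := by
    intro N hN
    rw [mem_filter, mem_Icc] at hN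
    obtain ⟨⟨h1, h2⟩, a, ha⟩ := hN
    rw [mem_image]
    refine ⟨a, ?_, by rw [ha]; ring⟩
    rw [mem_Icc]
    constructor
    · rcases Nat.eq_zero_or_pos a with h | h
      · subst h; omega
      · exact h
    · rw [Nat.le_sqrt]
      omega
  refine (card_le_card h1).trans (card_image_le.trans ?_)
  simp

/-- from a point outside every small set to many points -/
theorem many : ∀ᶠ X : ℝ in atTop, ∀ Q : ℕ → Prop,
    (∀ bad : Finset ℕ, (bad.card : ℝ) ≤ X ^ (9 / 10 : ℝ) → ∃ N : ℕ, Even N ∧ X < N ∧ (N : ℝ) ≤ 4 * X ∧ N ∉ bad ∧ Q N) →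
    X ^ (4 / 5 : ℝ) < ((evens X Q).card : ℝ) := by
  have h1 : ∀ᶠ X : ℝ in atTop, (4 : ℝ) ≤ X ^ (1 / 10 : ℝ) :=
    (tendsto_rpow_atTop (by norm_num : (0 : ℝ) < 1 / 10)).eventually_ge_atTop 4
  filter_upwards [h1, eventually_ge_atTop 1] with X h10 hX1 Q hQ
  by_contra hcon
  push Not at hcon
  have hX0 : 0 < X := by linarith
  obtain ⟨N, hNe, hNX, hN4, hNb, hNQ⟩ := hQ (evens X Q ∪ (Icc 1 ⌊4 * X⌋₊).filter (fun N => IsSquare N)) (by
    have e1 : (((evens X Q ∪ (Icc 1 ⌊4 * X⌋₊).filter (fun N => IsSquare N)).card : ℕ) : ℝ) ≤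
        ((evens X Q).card : ℝ) + (Nat.sqrt ⌊4 * X⌋₊ : ℝ) := by
      exact_mod_cast (card_union_le _ _).trans (Nat.add_le_add_left (card_squares _) _)
    refine e1.trans ?_
    have e2 : (Nat.sqrt ⌊4 * X⌋₊ : ℝ) ≤ 2 * X ^ (1 / 2 : ℝ) := by
      have f1 : (Nat.sqrt ⌊4 * X⌋₊ : ℝ) ≤ Real.sqrt (4 * X) := by
        refine Real.le_sqrt_of_sq_le ?_
        have f2 : ((Nat.sqrt ⌊4 * X⌋₊ ^ 2 : ℕ) : ℝ) ≤ (⌊4 * X⌋₊ : ℝ) := by
          exact_mod_cast Nat.sqrt_le' _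
        push_cast at f2
        exact f2.trans (Nat.floor_le (by positivity))
      refine f1.trans (le_of_eq ?_)
      rw [Real.sqrt_mul (by norm_num), Real.sqrt_eq_rpow X]
      congr 1
      rw [show (4 : ℝ) = 2 ^ 2 by norm_num]
      exact Real.sqrt_sq (by norm_num)
    have e3 : X ^ (1 / 2 : ℝ) ≤ X ^ (4 / 5 : ℝ) := Real.rpow_le_rpow_of_exponent_le hX1 (by norm_num)
    have e4 : X ^ (9 / 10 : ℝ) = X ^ (4 / 5 : ℝ) * X ^ (1 / 10 : ℝ) := by
      rw [← Real.rpow_add hX0]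
      norm_num
    have e5 : 0 < X ^ (4 / 5 : ℝ) := Real.rpow_pos_of_pos hX0 _
    rw [e4]
    nlinarith)
  apply hNb
  have hN1 : N ∈ Icc 1 ⌊4 * X⌋₊ := by
    rw [mem_Icc]
    refine ⟨?_, Nat.le_floor hN4⟩
    have : (0 : ℝ) < N := by linarith
    exact_mod_cast this
  by_cases hsq : IsSquare N
  · exact mem_union_right _ (mem_filter.2 ⟨hN1, hsq⟩)
  · exact mem_union_left _ (mem_filter.2 ⟨hN1, hNX, hNe, hsq, hNQ⟩)

theorem part1 : ∃ c : ℝ, 0 < c ∧ ∀ᶠ X : ℝ in atTop, ∀ m₀ : ℕ, Odd m₀ → (m₀ : ℝ) ≤ c * F X →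
    X ^ (4 / 5 : ℝ) < ((evens X (fun N => S (c * F X) N = {m₀})).card : ℝ) := by
  obtain ⟨c, hc, h⟩ := Pool.Agent.Q145.MT.sqOne
  refine ⟨c, hc, ?_⟩
  have t1 := Real.tendsto_log_atTop
  filter_upwards [h, many, t1.eventually_ge_atTop 1] with X hX hm hL m₀ hodd hm₀
  have hF : 0 ≤ c * F X := (Nat.cast_nonneg m₀).trans hm₀
  apply hm
  intro bad hbad
  obtain ⟨N, h1, h2, h3, h4, h5⟩ := hX ⌊c * F X⌋₊ (Nat.floor_le hF) m₀ hodd (Nat.le_floor hm₀) bad hbad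
  refine ⟨N, h1, h2, h3, h4, ?_⟩
  ext k
  unfold S
  simp only [Set.mem_ofPred_eq, Set.mem_singleton_iff]
  constructor
  · rintro ⟨hk, hp⟩
    exact (h5 k (Nat.le_floor hk)).1 hp
  · rintro rfl
    exact ⟨hm₀, (h5 k (Nat.le_floor hm₀)).2 rfl⟩

theorem part2 : ∃ η : ℝ, 0 < η ∧ ∀ m : ℕ, 1 ≤ m → ∃ K : ℕ, m ≤ K ∧ ∃ c : ℝ, 0 < c ∧ ∀ᶠ X : ℝ in atTop,
    ∀ μ : Fin K → ℕ, Function.Injective μ → (∀ j, Odd (μ j) ∧ (μ j : ℝ) ≤ c * F X) →
    (∀ i j, (μ i : ℝ) ^ 2 ≤ (μ j : ℝ) ^ 2 + (Real.log X) ^ 2) →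
    ∀ col : Fin K → Fin m, (∀ e, K ≤ 2 * m * (univ.filter (fun j => col j = e)).card) →
    X ^ (4 / 5 : ℝ) < ((evens X (fun N => S (c * F X) N ⊆ Set.range μ ∧
      η * m ≤ ((univ.filter (fun e : Fin m => ∃ j, col j = e ∧ μ j ∈ S (c * F X) N)).card : ℝ))).card : ℝ) := by
  obtain ⟨η, hη, h⟩ := Pool.Agent.Q145.MT.sqTuple
  refine ⟨η, hη, fun m hm => ?_⟩
  obtain ⟨K, hmK, c, hc, hK⟩ := h m hm
  refine ⟨K, hmK, c, hc, ?_⟩
  filter_upwards [hK, many] with X hX hmany μ hinj hμ hspread col hcol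
  have hK0 : 0 < K := by omega
  have hF : 0 ≤ c * F X := (Nat.cast_nonneg _).trans (hμ ⟨0, hK0⟩).2
  apply hmany
  intro bad hbad
  obtain ⟨N, h1, h2, h3, h4, h5, E, hE1, hE2⟩ := hX ⌊c * F X⌋₊ (Nat.floor_le hF) μ hinj
    (fun j => ⟨(hμ j).1, Nat.le_floor (hμ j).2⟩) hspread col
    (by
      intro e
      have := hcol e
      unfold Pool.Agent.H362R2.RQ.fib
      convert this using 2) bad hbad
  refine ⟨N, h1, h2, h3, h4, ?_, ?_⟩
  · rintro k ⟨hk, hp⟩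
    obtain ⟨j, hj⟩ := h5 k (Nat.le_floor hk) hp
    exact ⟨j, hj.symm⟩
  · refine hE1.trans ?_
    have : E ⊆ univ.filter (fun e : Fin m => ∃ j, col j = e ∧ μ j ∈ S (c * F X) N) := by
      intro e he
      obtain ⟨j, hj1, hj2⟩ := hE2 e he
      exact mem_filter.2 ⟨mem_univ _, j, hj1, (hμ j).2, hj2⟩
    exact_mod_cast card_le_card this

theorem part3 (β ε : ℝ) (hβ : 0 ≤ β) (hε : 0 < ε) (N₀ : ℕ) : ∃ N : ℕ, N₀ < N ∧ Even N ∧ ¬ IsSquare N ∧
    ∃ m : ℕ, IsLeast {k : ℕ | (N - k ^ 2).Prime} m ∧ |(m : ℝ) / Real.log N - β| < ε := by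
  obtain ⟨c, hc, h⟩ := part1
  have t1 := Real.tendsto_log_atTop
  have t2 : Tendsto (fun y : ℝ => Real.log (Real.log y)) atTop atTop := t1.comp t1
  have ev : ∀ᶠ X : ℝ in atTop, (∀ m₀ : ℕ, Odd m₀ → (m₀ : ℝ) ≤ c * F X →
      X ^ (4 / 5 : ℝ) < ((evens X (fun N => S (c * F X) N = {m₀})).card : ℝ)) ∧ (N₀ : ℝ) ≤ X ∧ 1 ≤ X ∧
      (2 + 2 * β) / ε < Real.log X ∧ 2 ≤ Real.log X ∧ (β + 1) / c ≤ Real.log (Real.log X) ∧ 1 ≤ Real.log (Real.log X) := by
    filter_upwards [h, eventually_ge_atTop (N₀ : ℝ), eventually_ge_atTop 1, t1.eventually_gt_atTop ((2 + 2 * β) / ε),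
      t1.eventually_ge_atTop 2, t2.eventually_ge_atTop ((β + 1) / c), t2.eventually_ge_atTop 1]
      with X a1 a2 a3 a4 a5 a6 a7
    exact ⟨a1, a2, a3, a4, a5, a6, a7⟩
  obtain ⟨X, hX, hXN, hX1, hLε, hL2, hAc, hA1⟩ := ev.exists
  have hX0 : 0 < X := by linarith
  set L := Real.log X with hL
  have hβL : 0 ≤ β * L := by positivity
  -- an odd number near `β log X`
  obtain ⟨m₀, hodd, hm1, hm2⟩ : ∃ m₀ : ℕ, Odd m₀ ∧ β * L - 1 ≤ m₀ ∧ (m₀ : ℝ) ≤ β * L + 1 := by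
    refine ⟨2 * ⌊β * L / 2⌋₊ + 1, odd_two_mul_add_one _, ?_, ?_⟩
    · have := Nat.lt_floor_add_one (β * L / 2)
      push_cast
      linarith
    · have := Nat.floor_le (by positivity : 0 ≤ β * L / 2)
      push_cast
      linarith
  have hm₀ : (m₀ : ℝ) ≤ c * F X := by
    unfold F
    rw [← hL]
    rw [div_le_iff₀ hc] at hAc
    have h1 : Real.log L ≤ (Real.log L) ^ 2 := by nlinarith
    calc (m₀ : ℝ) ≤ β * L + 1 := hm2
      _ ≤ (β + 1) * L := by nlinarith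
      _ ≤ (Real.log L * c) * L := mul_le_mul_of_nonneg_right hAc (by linarith)
      _ ≤ ((Real.log L) ^ 2 * c) * L := by gcongr
      _ = c * (L * (Real.log L) ^ 2) := by ring
  have h1 := hX m₀ hodd hm₀
  have h2 : 0 < (evens X (fun N => S (c * F X) N = {m₀})).card := by
    have : (0 : ℝ) < ((evens X (fun N => S (c * F X) N = {m₀})).card : ℝ) := (Real.rpow_pos_of_pos hX0 _).trans h1
    exact_mod_cast this
  obtain ⟨N, hN⟩ := card_pos.1 h2
  unfold evens at hN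
  rw [mem_filter, mem_Icc] at hN
  obtain ⟨⟨hN1, hN4⟩, hNX, hNe, hNsq, hS⟩ := hN
  have hmS : m₀ ∈ S (c * F X) N := by rw [hS]; exact Set.mem_singleton _
  refine ⟨N, ?_, hNe, hNsq, m₀, ⟨hmS.2, ?_⟩, ?_⟩
  · have : (N₀ : ℝ) < N := by linarith
    exact_mod_cast this
  · intro k hk
    by_contra hcon
    push Not at hcon
    have hkS : k ∈ S (c * F X) N := ⟨le_trans (by exact_mod_cast hcon.le) hm₀, hk⟩
    rw [hS, Set.mem_singleton_iff] at hkS
    omega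
  · have hN0 : (0 : ℝ) < N := by linarith
    have hlog1 : L ≤ Real.log N := Real.log_le_log hX0 hNX.le
    have hlog2 : Real.log N ≤ L + 2 := by
      have h3 : (N : ℝ) ≤ 4 * X := (Nat.cast_le.2 hN4).trans (Nat.floor_le (by positivity))
      have h4 : Real.log N ≤ Real.log (4 * X) := Real.log_le_log hN0 h3
      rw [Real.log_mul (by norm_num) hX0.ne'] at h4
      have h5 : Real.log 4 ≤ 2 := by
        have h6 : (4 : ℝ) = 2 ^ 2 := by norm_num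
        rw [h6, Real.log_pow]
        have := Real.log_two_lt_d9
        push_cast
        linarith
      linarith
    have hl0 : 0 < Real.log N := by linarith
    have h6 : (m₀ : ℝ) / Real.log N - β = (m₀ - β * Real.log N) / Real.log N := by
      field_simp
    rw [h6, abs_div, abs_of_pos hl0, div_lt_iff₀ hl0]
    have h7 : |(m₀ : ℝ) - β * Real.log N| ≤ 1 + 2 * β := by
      rw [abs_le]
      constructor <;> nlinarith
    rw [div_lt_iff₀ hε] at hLε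
    nlinarith

theorem result :
    (∃ c : ℝ, 0 < c ∧ ∀ᶠ X : ℝ in atTop, ∀ m₀ : ℕ, Odd m₀ → (m₀ : ℝ) ≤ c * F X →
      X ^ (4 / 5 : ℝ) < ((evens X (fun N => S (c * F X) N = {m₀})).card : ℝ)) ∧
    (∃ η : ℝ, 0 < η ∧ ∀ m : ℕ, 1 ≤ m → ∃ K : ℕ, m ≤ K ∧ ∃ c : ℝ, 0 < c ∧ ∀ᶠ X : ℝ in atTop,
      ∀ μ : Fin K → ℕ, Function.Injective μ → (∀ j, Odd (μ j) ∧ (μ j : ℝ) ≤ c * F X) →
      (∀ i j, (μ i : ℝ) ^ 2 ≤ (μ j : ℝ) ^ 2 + (Real.log X) ^ 2) →
      ∀ col : Fin K → Fin m, (∀ e, K ≤ 2 * m * (univ.filter (fun j => col j = e)).card) →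
      X ^ (4 / 5 : ℝ) < ((evens X (fun N => S (c * F X) N ⊆ Set.range μ ∧
        η * m ≤ ((univ.filter (fun e : Fin m => ∃ j, col j = e ∧ μ j ∈ S (c * F X) N)).card : ℝ))).card : ℝ)) ∧
    (∀ β ε : ℝ, 0 ≤ β → 0 < ε → ∀ N₀ : ℕ, ∃ N : ℕ, N₀ < N ∧ Even N ∧ ¬ IsSquare N ∧
      ∃ m : ℕ, IsLeast {k : ℕ | (N - k ^ 2).Prime} m ∧ |(m : ℝ) / Real.log N - β| < ε) :=
  ⟨part1, part2, part3⟩

end Pool.Agent.Results.MP_d48457_nt.SmallSquareSummands
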